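import Mathlib
import Pool.Agent.TH789.VT.Env

/-!
MP_3191e9_an (partial answer, negative direction): in an infinite-dimensional Hilbert space no
countable tiling that has a bounded tile is a power diagram (regions where one of a family of affine
functions is largest) with the slopes of the other tiles bounded away from the slope of the bounded
one; in particular no countable set with nearest points has a bounded distance function, so
separable Hilbert space has no Voronoi tiling with uniformly bounded cells.

Method. Let `F` be the (attained, hence continuous) maximum of the affine functions. A bounded tile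
as above, or a bounded distance function, gives a bounded slice of the graph of `F`. By a
Borwein-Preiss type variational principle there is then a point `z` of quadratic growth:
`F (z + v) ≥ F z + ⟪u, v⟫ + κ ‖v‖ ^ 2` for all small `v` in some closed subspace of finite
codimension. Near each such point and for each tile there is another such point that lies outside
the tile: otherwise one moves slightly into a neighbouring tile and minimizes along the hyperplane
parallel to the common wall, which has again finite codimension. By Baire's theorem in the closure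
of the set of all these points, some tile contains a relatively open part of it, a contradiction
when there are only countably many tiles.
-/

set_option autoImplicit false

namespace Pool.Agent.Results.MP_3191e9_an.NoPowerTiling

open TH789.VT

section aux

variable {H : Type*} [NormedAddCommGroup H] [InnerProductSpace ℝ H] [CompleteSpace H]
  {ι : Type*} [Countable ι] {s : ι → H} {c : ι → ℝ}

omit [CompleteSpace H] [Countable ι] in
theorem env_of (hmax : ∀ x, ∃ i, ∀ j, inner ℝ (s j) x + c j ≤ inner ℝ (s i) x + c i) :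
    ∃ F : H → ℝ, Env (Set.range fun i => (s i, c i)) F ∧
      ∀ x, ∃ i, F x = inner ℝ (s i) x + c i := by
  choose a ha using hmax
  refine ⟨fun x => inner ℝ (s (a x)) x + c (a x), ⟨?_, ?_⟩, fun x => ⟨a x, rfl⟩⟩
  · rintro _ ⟨i, rfl⟩ x
    exact ha x i
  · intro x
    exact ⟨_, ⟨a x, rfl⟩, rfl⟩

theorem no_slice (hinf : ¬ FiniteDimensional ℝ H)
    (hmax : ∀ x, ∃ i, ∀ j, inner ℝ (s j) x + c j ≤ inner ℝ (s i) x + c i)
    (u : H) (t : ℝ) (hne : {x | ∀ i, inner ℝ (s i) x + c i < inner ℝ u x + t}.Nonempty) :
    ¬ Bornology.IsBounded {x | ∀ i, inner ℝ (s i) x + c i < inner ℝ u x + t} := by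
  intro hb
  obtain ⟨x0, hx0⟩ := hne
  obtain ⟨F, hE, hF⟩ := env_of hmax
  obtain ⟨R, hR⟩ := (Metric.isBounded_iff_subset_closedBall x0).1 hb
  obtain ⟨i0, hi0⟩ := hF x0
  have h0 : F x0 < inner ℝ u x0 + t := by
    rw [hi0]
    exact hx0 i0
  obtain ⟨z, hz⟩ := gd_of_slice hE (x0 := x0) (u := u) (r := max R 0 + 1)
    (η := inner ℝ u x0 + t - F x0) (by positivity) (by linarith) (fun v hv => by
      by_contra hlt
      push Not at hlt
      have h1 : x0 + v ∈ {x | ∀ i, inner ℝ (s i) x + c i < inner ℝ u x + t} := by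
        intro i
        have h2 : inner ℝ (s i) (x0 + v) + c i ≤ F (x0 + v) := hE.le (s i, c i) ⟨i, rfl⟩ (x0 + v)
        rw [inner_add_right] at h2 ⊢
        rw [inner_add_right]
        linarith
      have h3 := hR h1
      rw [Metric.mem_closedBall, dist_eq_norm, add_sub_cancel_left, hv] at h3
      have := le_max_left R 0
      linarith)
  exact no_gd hinf (Set.countable_range _) hE z hz

theorem tile_unbounded (hinf : ¬ FiniteDimensional ℝ H)
    (hmax : ∀ x, ∃ i, ∀ j, inner ℝ (s j) x + c j ≤ inner ℝ (s i) x + c i)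
    (i₀ : ι) (δ : ℝ) (hδ : 0 < δ) (hsep : ∀ j, j ≠ i₀ → δ ≤ ‖s j - s i₀‖)
    (hint : (interior {x | ∀ j, inner ℝ (s j) x + c j ≤ inner ℝ (s i₀) x + c i₀}).Nonempty) :
    ¬ Bornology.IsBounded {x | ∀ j, inner ℝ (s j) x + c j ≤ inner ℝ (s i₀) x + c i₀} := by
  intro hb
  obtain ⟨x0, hx0⟩ := hint
  rw [mem_interior_iff_mem_nhds, Metric.mem_nhds_iff] at hx0
  obtain ⟨ε, hε, hball⟩ := hx0
  obtain ⟨R, hR⟩ := (Metric.isBounded_iff_subset_closedBall x0).1 hb
  set r := max R 0 + 1 with hr
  have hr0 : 0 < r := by positivity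
  refine no_slice hinf hmax (s i₀) (c i₀ + ε / 2 * δ) ⟨x0, fun i => ?_⟩ ?_
  · have h1 : inner ℝ (s i) x0 + c i ≤ inner ℝ (s i₀) x0 + c i₀ :=
      hball (Metric.mem_ball_self hε) i
    have h2 : 0 < ε / 2 * δ := by positivity
    linarith
  · rw [Metric.isBounded_iff_subset_closedBall x0]
    refine ⟨2 * r, fun x hx => ?_⟩
    rw [Metric.mem_closedBall, dist_eq_norm]
    by_contra hlt
    push Not at hlt
    set n := ‖x - x0‖ with hn
    have hn0 : 0 < n := by linarith
    set y := x0 + (r / n) • (x - x0) with hy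
    have hyT : y ∉ {x | ∀ j, inner ℝ (s j) x + c j ≤ inner ℝ (s i₀) x + c i₀} := by
      intro h1
      have h2 := hR h1
      rw [Metric.mem_closedBall, dist_eq_norm, hy, add_sub_cancel_left, norm_smul,
        Real.norm_of_nonneg (by positivity), ← hn] at h2
      have h3 : r / n * n = r := by field_simp
      rw [h3] at h2
      have := le_max_left R 0
      linarith
    simp only [Set.mem_ofPred_eq, not_forall, not_le] at hyT
    obtain ⟨j, hj⟩ := hyT
    have hji : j ≠ i₀ := by
      rintro rfl
      exact lt_irrefl _ hj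
    have hd := hsep j hji
    have hd0 : 0 < ‖s j - s i₀‖ := by linarith
    set w := x0 + (ε / 2 / ‖s j - s i₀‖) • (s j - s i₀) with hw
    have hwb : w ∈ Metric.ball x0 ε := by
      rw [Metric.mem_ball, dist_eq_norm, hw, add_sub_cancel_left, norm_smul,
        Real.norm_of_nonneg (by positivity)]
      have h3 : ε / 2 / ‖s j - s i₀‖ * ‖s j - s i₀‖ = ε / 2 := by field_simp
      rw [h3]
      linarith
    have hwT : inner ℝ (s j) w + c j ≤ inner ℝ (s i₀) w + c i₀ := hball hwb j
    have h4 : inner ℝ (s j) w - inner ℝ (s i₀) w =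
        inner ℝ (s j) x0 - inner ℝ (s i₀) x0 + ε / 2 * ‖s j - s i₀‖ := by
      have h5 : inner ℝ (s j - s i₀) w = inner ℝ (s j - s i₀) x0 + ε / 2 * ‖s j - s i₀‖ := by
        rw [hw, inner_add_right, inner_smul_right, real_inner_self_eq_norm_sq]
        have h6 : ε / 2 / ‖s j - s i₀‖ * ‖s j - s i₀‖ ^ 2 = ε / 2 * ‖s j - s i₀‖ := by field_simp
        rw [h6]
      rw [inner_sub_left, inner_sub_left] at h5
      exact h5
    have h5 : ε / 2 * δ ≤ ε / 2 * ‖s j - s i₀‖ := by gcongr
    have h6 : inner ℝ (s j) y - inner ℝ (s i₀) y =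
        inner ℝ (s j) x0 - inner ℝ (s i₀) x0 +
          (r / n) * ((inner ℝ (s j) x - inner ℝ (s i₀) x) -
            (inner ℝ (s j) x0 - inner ℝ (s i₀) x0)) := by
      rw [hy, inner_add_right, inner_add_right, inner_smul_right, inner_smul_right,
        inner_sub_right, inner_sub_right]
      ring
    have h7 := hx j
    set a := inner ℝ (s j) x0 - inner ℝ (s i₀) x0 + (c j - c i₀) with ha
    set b := inner ℝ (s j) x - inner ℝ (s i₀) x + (c j - c i₀) with hbb
    have ha1 : a ≤ -(ε / 2 * δ) := by
      rw [ha]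
      linarith
    have hb1 : b < ε / 2 * δ := by
      rw [hbb]
      linarith
    have hab : 0 < a + (r / n) * (b - a) := by
      have h8 : b - a = (inner ℝ (s j) x - inner ℝ (s i₀) x) -
            (inner ℝ (s j) x0 - inner ℝ (s i₀) x0) := by
        rw [ha, hbb]
        ring
      rw [h8, ha]
      linarith
    have hrn : r / n ≤ 1 / 2 := by
      rw [div_le_div_iff₀ hn0 two_pos]
      linarith
    have h9 : 0 < b - a := by
      by_contra h10
      push Not at h10
      have h11 : (r / n) * (b - a) ≤ 0 := mul_nonpos_of_nonneg_of_nonpos (by positivity) h10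
      have h12 : 0 < ε / 2 * δ := by positivity
      linarith
    have h10 : (r / n) * (b - a) ≤ 1 / 2 * (b - a) := by gcongr
    linarith

end aux

/-- Let `H` be an infinite-dimensional real Hilbert space.

(a) If countably many affine functions have an attained maximum at every point of `H`, then the set
of points where this maximum is smaller than a given affine function is empty or unbounded.

(b) If, moreover, the slopes of the others are at distance at least `δ > 0` from the slope of the
function with index `i₀`, and the region where that function is largest has an interior point, then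
the region is unbounded.

(c) If `D` is a countable set such that every point of `H` has a nearest point in `D`, then the
distance to `D` is unbounded. -/
theorem result (H : Type*) [NormedAddCommGroup H] [InnerProductSpace ℝ H] [CompleteSpace H]
    (hinf : ¬ FiniteDimensional ℝ H) :
    (∀ (ι : Type*) (_ : Countable ι) (s : ι → H) (c : ι → ℝ),
      (∀ x : H, ∃ i, ∀ j, inner ℝ (s j) x + c j ≤ inner ℝ (s i) x + c i) →
      (∀ (u : H) (t : ℝ), {x : H | ∀ i, inner ℝ (s i) x + c i < inner ℝ u x + t}.Nonempty →
        ¬ Bornology.IsBounded {x : H | ∀ i, inner ℝ (s i) x + c i < inner ℝ u x + t}) ∧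
      (∀ (i₀ : ι) (δ : ℝ), 0 < δ → (∀ j, j ≠ i₀ → δ ≤ ‖s j - s i₀‖) →
        (interior {x : H | ∀ j, inner ℝ (s j) x + c j ≤ inner ℝ (s i₀) x + c i₀}).Nonempty →
        ¬ Bornology.IsBounded
          {x : H | ∀ j, inner ℝ (s j) x + c j ≤ inner ℝ (s i₀) x + c i₀})) ∧
    (∀ D : Set H, D.Countable → (∀ x : H, ∃ d ∈ D, ∀ d' ∈ D, ‖x - d‖ ≤ ‖x - d'‖) →
      ∀ R : ℝ, ∃ x : H, ∀ d ∈ D, R < ‖x - d‖) := by
  refine ⟨fun ι hι s c hmax => ⟨fun u t hne => no_slice hinf hmax u t hne,
    fun i₀ δ hδ hsep hint => tile_unbounded hinf hmax i₀ δ hδ hsep hint⟩, ?_⟩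
  intro D hD hnear R
  by_contra hcon
  push Not at hcon
  have hct : Countable D := hD.to_subtype
  have key : ∀ (d x : H), inner ℝ ((2 : ℝ) • d) x + -‖d‖ ^ 2 = ‖x‖ ^ 2 - ‖x - d‖ ^ 2 := by
    intro d x
    rw [norm_sub_sq_real, inner_smul_left, real_inner_comm]
    simp only [conj_trivial]
    ring
  have hmax : ∀ x : H, ∃ i : D, ∀ j : D, inner ℝ ((2 : ℝ) • (j : H)) x + -‖(j : H)‖ ^ 2 ≤
      inner ℝ ((2 : ℝ) • (i : H)) x + -‖(i : H)‖ ^ 2 := by
    intro x
    obtain ⟨d, hd, hdm⟩ := hnear x
    refine ⟨⟨d, hd⟩, fun j => ?_⟩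
    rw [key, key]
    have h1 := hdm j j.2
    have h2 : ‖x - d‖ ^ 2 ≤ ‖x - (j : H)‖ ^ 2 := by gcongr
    linarith
  obtain ⟨d0, hd0, hd0R⟩ := hcon 0
  have hR0 : 0 ≤ R := (norm_nonneg _).trans hd0R
  refine no_slice hinf hmax 0 1 ⟨0, fun i => ?_⟩ ?_
  · rw [key, norm_zero, inner_zero_left]
    have : 0 ≤ ‖(0 : H) - (i : H)‖ ^ 2 := by positivity
    linarith
  · rw [Metric.isBounded_iff_subset_closedBall 0]
    refine ⟨R + 1, fun x hx => ?_⟩
    rw [Metric.mem_closedBall, dist_zero_right]
    by_contra hlt
    push Not at hlt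
    obtain ⟨d, hd, hdR⟩ := hcon x
    have h1 := hx ⟨d, hd⟩
    rw [key, inner_zero_left] at h1
    have h2 : ‖x - d‖ ^ 2 ≤ R ^ 2 := by gcongr
    have h3 : (R + 1) ^ 2 ≤ ‖x‖ ^ 2 := by gcongr
    simp only at h1
    nlinarith

end Pool.Agent.Results.MP_3191e9_an.NoPowerTiling
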